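import Pool.Agent.H18.PB.Skel2

/-!
# Limit thresholds

Classes of families with events (`PCl`), claims in such classes (`Clp`), and the theorem (`ext`)
that the thresholds of countably many hereditary monotone properties are numbers of a nonempty
subclass: they are attained everywhere up to the defect, and they are not exceeded on large events.
-/

set_option autoImplicit false

namespace Pool.PB

open Finset Real
open Pool.Agent.H49.Ent Pool.Agent.H32.Dense Pool.STK Pool.KA Pool.K2S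

variable {m : ℕ}

/-- A class of families with events; the parameter measures the defects. -/
structure PCl (m : ℕ) where
  /-- the families and events with defect at most `τ` -/
  St : ℝ → Stat m
  mono : ∀ {τ τ' : ℝ} {J : ℕ} {F : Fam m J} {A : F.Ω → Prop}, τ ≤ τ' → St τ J F A → St τ' J F A
  res : ∀ {τ τ' : ℝ} {J : ℕ} {F : Fam m J} {A B : F.Ω → Prop}, 0 ≤ τ' → St τ J F A → Sub B A →
    Real.exp (-(τ' * J)) * Pe F.p A ≤ Pe F.p B → St (τ + τ') J F B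

/-- The class is nonempty, for arbitrarily small defects and large resolutions. -/
def PCl.Ne (S : PCl m) : Prop :=
  ∀ τ : ℝ, 0 < τ → ∀ J₁ : ℕ, ∃ J ≥ J₁, ∃ (F : Fam m J) (A : F.Ω → Prop), S.St τ J F A

/-- The large events of the families of a class. -/
def FCl.toP (S : FCl m) : PCl m where
  St τ J F A := S.St τ F A
  mono h hS := hS.mono h
  res := by
    intro τ τ' J F A B hτ hS hB hP
    refine ⟨S.mono (by linarith) hS.1, ?_⟩
    refine le_trans ?_ hP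
    refine le_trans ?_ (mul_le_mul_of_nonneg_left hS.2 (Real.exp_pos _).le)
    rw [← Real.exp_add]
    refine Real.exp_le_exp.2 ?_
    have : -((τ + τ') * (J : ℝ)) = -(τ' * J) + -(τ * J) := by ring
    rw [this]

/-- The statement holds for stable events of the class; the lists of properties may depend on the
freedoms of the earlier lists. -/
inductive Clp (S : PCl m) : Stat m → Prop
  | base {Φ : Stat m} (τ : ℝ) (hτ : 0 < τ) (J₁ : ℕ)
      (h : ∀ J ≥ J₁, ∀ (F : Fam m J) (A : F.Ω → Prop), S.St τ J F A → Φ J F A) : Clp S Φ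
  | step {Φ : Stat m} (L : PList m)
      (h : ∀ κ : ℝ, 0 < κ → Clp S (fun _ F A => L.Sb F κ A → Φ _ F A)) : Clp S Φ

theorem Clp.mono {S : PCl m} {J₂ : ℕ} {Φ : Stat m} (hc : Clp S Φ) : ∀ {Ψ : Stat m},
    (∀ J ≥ J₂, ∀ (F : Fam m J) (A : F.Ω → Prop), Φ J F A → Ψ J F A) → Clp S Ψ := by
  induction hc with
  | base τ hτ J₁ h =>
    intro Ψ hΨ
    exact Clp.base τ hτ (max J₁ J₂) fun J hJ F A hA =>
      hΨ J ((le_max_right _ _).trans hJ) F A (h J ((le_max_left _ _).trans hJ) F A hA)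
  | step L h ih =>
    intro Ψ hΨ
    exact Clp.step L fun κ hκ => ih κ hκ fun J hJ F A h1 h2 => hΨ J hJ F A (h1 h2)

/-- A claim in a class holds in every subclass. -/
theorem Clp.sub {S S' : PCl m} {τ₀ : ℝ} (hτ₀ : 0 < τ₀)
    (hs : ∀ τ : ℝ, 0 < τ → τ ≤ τ₀ → ∀ (J : ℕ) (F : Fam m J) (A : F.Ω → Prop),
      S'.St τ J F A → S.St τ J F A) {Φ : Stat m} (hc : Clp S Φ) : Clp S' Φ := by
  induction hc with
  | base τ hτ J₁ h =>
    exact Clp.base (min τ τ₀) (lt_min hτ hτ₀) J₁ fun J hJ F A hA => h J hJ F A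
      (S.mono (min_le_left _ _) (hs _ (lt_min hτ hτ₀) (min_le_right _ _) J F A hA))
  | step L h ih => exact Clp.step L ih

theorem clp_of_clg {S : FCl m} {Φ : Stat m} (hc : Clg S Φ) : Clp S.toP Φ := by
  induction hc with
  | base τ hτ J₁ h => exact Clp.base τ hτ J₁ h
  | step L h ih => exact Clp.step L ih

theorem clg_of_clp {S : FCl m} {Φ : Stat m} (hc : Clp S.toP Φ) : Clg S Φ := by
  induction hc with
  | base τ hτ J₁ h => exact Clg.base τ hτ J₁ h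
  | step L h ih => exact Clg.step L ih

/-- A claim which holds without stability. -/
theorem Clp.of {S : PCl m} {τ : ℝ} {Φ : Stat m} (hτ : 0 < τ) (J₁ : ℕ)
    (h : ∀ J ≥ J₁, ∀ (F : Fam m J) (A : F.Ω → Prop), S.St τ J F A → Φ J F A) :
    Clp S Φ := Clp.base τ hτ J₁ h

/-- A claim with one level. -/
theorem Clp.one {S : PCl m} {Φ : Stat m} (L : PList m)
    (h : ∀ κ > 0, ∃ τ > 0, ∃ J₁ : ℕ, ∀ J ≥ J₁, ∀ (F : Fam m J) (A : F.Ω → Prop),
      S.St τ J F A → L.Sb F κ A → Φ J F A) : Clp S Φ := by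
  refine Clp.step L fun κ hκ => ?_
  obtain ⟨τ, hτ, J₁, h1⟩ := h κ hκ
  exact Clp.base τ hτ J₁ h1

theorem Clp.and {S : PCl m} {Φ Ψ : Stat m} (h1 : Clp S Φ) (h2 : Clp S Ψ) :
    Clp S (fun _ F A => Φ _ F A ∧ Ψ _ F A) := by
  induction h1 generalizing Ψ with
  | base τ hτ J₁ h =>
    induction h2 with
    | base τ' hτ' J₁' h' =>
      exact Clp.base (min τ τ') (lt_min hτ hτ') (max J₁ J₁') fun J hJ F A hA =>
        ⟨h J ((le_max_left _ _).trans hJ) F A (S.mono (min_le_left _ _) hA),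
        h' J ((le_max_right _ _).trans hJ) F A (S.mono (min_le_right _ _) hA)⟩
    | step L' h' ih' =>
      refine Clp.step L' fun κ hκ => ?_
      exact Clp.mono (J₂ := 0) (ih' κ hκ) fun J _ F A h3 h4 => ⟨h3.1, h3.2 h4⟩
  | step L h ih =>
    refine Clp.step L fun κ hκ => ?_
    exact Clp.mono (J₂ := 0) (ih κ hκ h2) fun J _ F A h3 h4 => ⟨h3.1 h4, h3.2⟩

theorem Clp.mp {S : PCl m} {Φ Ψ : Stat m} (h1 : Clp S (fun _ F A => Φ _ F A → Ψ _ F A))
    (h2 : Clp S Φ) : Clp S Ψ :=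
  Clp.mono (J₂ := 0) (h1.and h2) fun _ _ _ _ h => h.1 h.2

/-- Claims whose statement may depend on the freedom of a list. -/
theorem Clp.list {S : PCl m} {Φ : Stat m} (L : PList m)
    (h : ∀ κ : ℝ, 0 < κ → Clp S (fun _ F A => L.Sb F κ A → Φ _ F A)) : Clp S Φ :=
  Clp.step L h

theorem Clp.fin {S : PCl m} : ∀ {n : ℕ} {Φ : Fin n → Stat m}, (∀ i, Clp S (Φ i)) →
    Clp S (fun _ F A => ∀ i, Φ i _ F A)
  | 0, _, _ => Clp.of one_pos 0 (fun _ _ _ _ _ i => Fin.elim0 i)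
  | n + 1, Φ, h => by
    refine Clp.mono (J₂ := 0) ((h 0).and (Clp.fin (Φ := fun i : Fin n => Φ i.succ)
      fun i => h i.succ)) ?_
    rintro J - F A ⟨h1, h2⟩ i
    exact Fin.cases h1 h2 i

theorem Clp.finite {S : PCl m} {ι : Type} [Finite ι] {Φ : ι → Stat m}
    (h : ∀ i, Clp S (Φ i)) : Clp S (fun _ F A => ∀ i, Φ i _ F A) := by
  obtain ⟨n, ⟨e⟩⟩ := Finite.exists_equiv_fin ι
  refine Clp.mono (J₂ := 0) (Clp.fin (Φ := fun i : Fin n => Φ (e.symm i)) fun i => h _) ?_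
  intro J _ F A h1 i
  have := h1 (e i)
  simpa using this

/-- Finitely many claims. -/
theorem Clp.all {S : PCl m} (n : ℕ) {Φ : ℕ → Stat m} (h : ∀ i < n, Clp S (Φ i)) :
    Clp S (fun _ F A => ∀ i < n, Φ i _ F A) := by
  refine Clp.mono (J₂ := 0) (Clp.fin (Φ := fun i : Fin n => Φ i) fun i => h i i.2) ?_
  intro J _ F A h1 i hi
  exact h1 ⟨i, hi⟩

/-- A claim under a condition which does not depend on the family. -/
theorem Clp.cnd {S : PCl m} {P : Prop} {Φ : Stat m} (h : P → Clp S Φ) :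
    Clp S (fun _ F A => P → Φ _ F A) := by
  by_cases hP : P
  · exact Clp.mono (J₂ := 0) (h hP) (fun _ _ _ _ h1 _ => h1)
  · exact Clp.of one_pos 0 (fun _ _ _ _ _ h1 => absurd h1 hP)

theorem Clp.win {S : PCl m} {Φ : Stat m} (hc : Clp S Φ) : ∀ δ > 0,
    ∃ c > 0, ∃ J₁ : ℕ, ∀ J ≥ J₁, ∀ (F : Fam m J) (A₀ : F.Ω → Prop), S.St c J F A₀ →
      ∃ A : F.Ω → Prop, Sub A A₀ ∧ Real.exp (-(δ * J)) * Pe F.p A₀ ≤ Pe F.p A ∧ Φ J F A := by
  induction hc with
  | base τ hτ J₁ h =>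
    intro δ hδ
    refine ⟨τ, hτ, J₁, fun J hJ F A₀ hS => ⟨A₀, fun _ h => h, ?_, h J hJ F A₀ hS⟩⟩
    have : Real.exp (-(δ * J)) ≤ 1 := by
      rw [Real.exp_le_one_iff]
      have : 0 ≤ δ * J := by positivity
      linarith
    calc _ ≤ 1 * Pe F.p A₀ := mul_le_mul_of_nonneg_right this (Pe_nonneg F.isLaw A₀)
      _ = _ := one_mul _
  | @step Φ L hL ih =>
    intro δ hδ
    have key : ∀ κ : ℝ, ∃ c : ℝ, ∃ J₁ : ℕ, 0 < κ → 0 < c ∧ ∀ J ≥ J₁, ∀ (F : Fam m J)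
        (A₀ : F.Ω → Prop), S.St c J F A₀ → ∃ A : F.Ω → Prop, Sub A A₀ ∧
        Real.exp (-(min κ (δ / 2) * J)) * Pe F.p A₀ ≤ Pe F.p A ∧ (L.Sb F κ A → Φ J F A) := by
      intro κ
      by_cases hκ : 0 < κ
      · obtain ⟨c, hc, J₁, h⟩ := ih κ hκ (min κ (δ / 2)) (lt_min hκ (half_pos hδ))
        exact ⟨c, J₁, fun _ => ⟨hc, h⟩⟩
      · exact ⟨0, 0, fun h => absurd h hκ⟩
    choose c J₁ hc using key
    obtain ⟨κ, hκ0, hκ⟩ := exists_seq L.n (fun κ => min (c κ / 4) (δ / 4))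
      (fun κ hκ => lt_min (by have := (hc κ hκ).1; linarith) (by linarith))
    obtain ⟨μ, hμ0, hμ⟩ : ∃ μ > 0, ∀ n ≤ L.n, μ ≤ c (κ n) / 2 := by
      have hne : ((range (L.n + 1)).image fun n => c (κ n) / 2).Nonempty :=
        ⟨c (κ 0) / 2, Finset.mem_image.2 ⟨0, Finset.mem_range.2 (by omega), rfl⟩⟩
      refine ⟨((range (L.n + 1)).image fun n => c (κ n) / 2).min' hne, ?_, fun n hn => ?_⟩
      · obtain ⟨n, -, hn⟩ := Finset.mem_image.1 (Finset.min'_mem _ hne)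
        rw [← hn]
        exact half_pos (hc _ (hκ0 n)).1
      · exact Finset.min'_le _ _ (Finset.mem_image.2 ⟨n, Finset.mem_range.2 (by omega), rfl⟩)
    obtain ⟨J₂, hJ₂⟩ : ∃ J₂ : ℕ, ∀ n ≤ L.n, J₁ (κ n) ≤ J₂ :=
      ⟨∑ n ∈ range (L.n + 1), J₁ (κ n), fun n hn =>
        Finset.single_le_sum (f := fun n => J₁ (κ n)) (fun _ _ => Nat.zero_le _)
          (Finset.mem_range.2 (by omega))⟩
    refine ⟨μ, hμ0, J₂, fun J hJ F A₀ hS => ?_⟩
    have hJr : (0 : ℝ) ≤ J := Nat.cast_nonneg J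
    obtain ⟨n, hn, A₁, hA1, hP1, hS1⟩ := stab_inside (p := F.p) (L.Q J F) (L.her J F)
      (fun i => 2 * κ i * J) A₀
    have hsum : ∑ i ∈ range n, 2 * κ i * J = 2 * (∑ i ∈ range n, κ i) * J := by
      rw [Finset.mul_sum, Finset.sum_mul]
    rw [hsum] at hP1
    have hle := hκ n hn
    have hle1 : ∑ i ∈ range n, κ i ≤ c (κ n) / 4 := hle.trans (min_le_left _ _)
    have hle2 : ∑ i ∈ range n, κ i ≤ δ / 4 := hle.trans (min_le_right _ _)
    have hsum0 : 0 ≤ ∑ i ∈ range n, κ i := Finset.sum_nonneg fun i _ => (hκ0 i).le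
    obtain ⟨hcn, hwin⟩ := hc (κ n) (hκ0 n)
    have hS' : S.St (c (κ n)) J F A₁ := by
      refine S.mono ?_ (S.res (τ' := c (κ n) / 2) (by linarith) hS hA1 ?_)
      · have := hμ n hn
        linarith
      · refine le_trans (mul_le_mul_of_nonneg_right (Real.exp_le_exp.2 ?_)
          (Pe_nonneg F.isLaw A₀)) hP1
        have e1 : 2 * (∑ i ∈ range n, κ i) * J ≤ c (κ n) / 2 * J :=
          mul_le_mul_of_nonneg_right (by linarith) hJr
        linarith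
    obtain ⟨A, hA, hP, hΦ⟩ := hwin J ((hJ₂ n hn).trans hJ) F A₁ hS'
    refine ⟨A, hA.trans hA1, ?_, hΦ fun i => ?_⟩
    · refine le_trans ?_ hP
      refine le_trans ?_ (mul_le_mul_of_nonneg_left hP1 (Real.exp_pos _).le)
      rw [← mul_assoc, ← Real.exp_add]
      refine mul_le_mul_of_nonneg_right (Real.exp_le_exp.2 ?_) (Pe_nonneg F.isLaw A₀)
      have e1 : 2 * (∑ i ∈ range n, κ i) * J ≤ δ / 2 * J :=
        mul_le_mul_of_nonneg_right (by linarith) hJr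
      have e2 : min (κ n) (δ / 2) * J ≤ δ / 2 * J :=
        mul_le_mul_of_nonneg_right (min_le_right _ _) hJr
      linarith
    · have h1 := (hS1 i).sub (L.her J F i) hA hP
      refine h1.mono F.isLaw ?_
      have e2 : min (κ n) (δ / 2) * J ≤ κ n * J :=
        mul_le_mul_of_nonneg_right (min_le_left _ _) hJr
      linarith

/-- **Realisation.** In a nonempty class there are families and events for which a claim holds. -/
theorem Clp.real {S : PCl m} (hS : S.Ne) {Φ : Stat m} (hc : Clp S Φ) {τ : ℝ} (hτ : 0 < τ)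
    (J₀ : ℕ) : ∃ J ≥ J₀, ∃ (F : Fam m J) (A : F.Ω → Prop), S.St τ J F A ∧ Φ J F A := by
  obtain ⟨c, hc, J₁, h⟩ := hc.win (τ / 2) (half_pos hτ)
  obtain ⟨J, hJ, F, A₀, hA⟩ := hS (min c (τ / 2)) (lt_min hc (half_pos hτ)) (max J₀ J₁)
  obtain ⟨A, hs, hP, hΦ⟩ := h J ((le_max_right _ _).trans hJ) F A₀
    (S.mono (min_le_left _ _) hA)
  refine ⟨J, (le_max_left _ _).trans hJ, F, A, ?_, hΦ⟩
  exact S.mono (by linarith [min_le_right c (τ / 2)]) (S.res (half_pos hτ).le hA hs hP)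

theorem Clp.not_false {S : PCl m} (hS : S.Ne) : ¬ Clp S (fun _ _ _ => False) := by
  intro h
  obtain ⟨J, -, F, A, -, h1⟩ := h.real hS one_pos 0
  exact h1

/-! ### Sliding properties and subclasses -/

/-- A property of events with a defect, which is inherited by large subevents. -/
structure Sld (m : ℕ) where
  /-- the property with defect `τ` -/
  P : ℝ → Stat m
  mono : ∀ {τ τ' : ℝ} {J : ℕ} {F : Fam m J} {A : F.Ω → Prop}, τ ≤ τ' → P τ J F A → P τ' J F A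
  res : ∀ {τ τ' : ℝ} {J : ℕ} {F : Fam m J} {A B : F.Ω → Prop}, 0 ≤ τ' → P τ J F A → Sub B A →
    Real.exp (-(τ' * J)) * Pe F.p A ≤ Pe F.p B → P (τ + τ') J F B

/-- The subclass with the additional property. -/
def PCl.sl (S : PCl m) (P : Sld m) : PCl m where
  St τ J F A := S.St τ J F A ∧ P.P τ J F A
  mono h hA := ⟨S.mono h hA.1, P.mono h hA.2⟩
  res h hA hB hP := ⟨S.res h hA.1 hB hP, P.res h hA.2 hB hP⟩

theorem Clp.sl {S : PCl m} (P : Sld m) {Φ : Stat m} (hc : Clp S Φ) : Clp (S.sl P) Φ :=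
  hc.sub (S' := S.sl P) one_pos fun _ _ _ _ _ _ h => h.1

/-- **Finite choice.** If one of finitely many properties holds, then one of them holds in a
nonempty subclass. -/
theorem PCl.Ne.choice {S : PCl m} (hS : S.Ne) {ι : Type} [Finite ι] (P : ι → Sld m)
    (h : ∀ τ : ℝ, 0 < τ → Clp S (fun J F A => ∃ i, (P i).P τ J F A)) :
    ∃ i, (S.sl (P i)).Ne := by
  classical
  have := Fintype.ofFinite ι
  by_contra hcon
  push Not at hcon
  have key : ∀ i, ∃ τ : ℝ, 0 < τ ∧ ∃ J₁ : ℕ, ∀ J ≥ J₁, ∀ (F : Fam m J) (A : F.Ω → Prop),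
      ¬ (S.sl (P i)).St τ J F A := by
    intro i
    have := hcon i
    unfold PCl.Ne at this
    push Not at this
    exact this
  choose τ hτ J₁ hn using key
  obtain ⟨t, ht0, ht⟩ : ∃ t > 0, ∀ i, t ≤ τ i := by
    rcases isEmpty_or_nonempty ι with he | he
    · exact ⟨1, one_pos, fun i => (he.false i).elim⟩
    · have hne : (univ.image τ).Nonempty := univ_nonempty.image τ
      refine ⟨(univ.image τ).min' hne, ?_, fun i => ?_⟩
      · obtain ⟨i, -, hi⟩ := Finset.mem_image.1 (Finset.min'_mem _ hne)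
        rw [← hi]
        exact hτ i
      · exact Finset.min'_le _ _ (Finset.mem_image.2 ⟨i, mem_univ i, rfl⟩)
  obtain ⟨J, hJ, F, A, hA, i, hi⟩ := (h t ht0).real hS ht0 (∑ i, J₁ i)
  refine hn i J (le_trans ?_ hJ) F A ⟨S.mono (ht i) hA, (P i).mono (ht i) hi⟩
  exact Finset.single_le_sum (f := J₁) (fun _ _ => Nat.zero_le _) (mem_univ i)

/-! ### Thresholds -/

/-- A threshold property: hereditary, decreasing in the threshold, trivial for the threshold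
`0`. -/
structure Thr (m : ℕ) where
  /-- the property with threshold `s` -/
  Q : ℝ → Stat m
  her : ∀ (s : ℝ) (J : ℕ) (F : Fam m J), Hered (Q s J F)
  anti : ∀ {s s' : ℝ} {J : ℕ} {F : Fam m J} {A : F.Ω → Prop}, s' ≤ s → Q s J F A → Q s' J F A
  triv : ∀ {s : ℝ} {J : ℕ} {F : Fam m J} {A : F.Ω → Prop}, s ≤ 0 → Q s J F A

/-- The property with threshold `s` fails on all events of relative probability at least
`exp (-ψ J)`. -/
def Thr.No (T : Thr m) (s ψ : ℝ) : Stat m := fun J F A => ∀ B : F.Ω → Prop, Sub B A →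
  Real.exp (-(ψ * J)) * Pe F.p A ≤ Pe F.p B → ¬ T.Q s J F B

/-- The sliding property of a threshold. -/
def Thr.sld (T : Thr m) (s : ℝ) : Sld m where
  P τ J F A := T.Q (s - τ) J F A
  mono h hA := T.anti (by linarith) hA
  res := by
    intro τ τ' J F A B h hA hB _
    exact T.anti (by linarith) (T.her _ _ _ A B hB hA)

/-- One threshold. -/
theorem PCl.Ne.thr {S : PCl m} (hS : S.Ne) (T : Thr m) : ∃ s : ℝ, 0 ≤ s ∧ s ≤ 1 ∧
    (S.sl (T.sld s)).Ne ∧ (∀ h : ℝ, s < h → h ≤ 1 → ∃ ψ > 0, Clp S (T.No h ψ)) ∧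
    ∀ g : ℝ, 0 ≤ g → g ≤ 1 → (∀ ψ > 0, ¬ Clp S (T.No g ψ)) → g ≤ s := by
  obtain ⟨X, hX⟩ : ∃ X : Set ℝ, X = {s : ℝ | 0 ≤ s ∧ s ≤ 1 ∧
      (s = 0 ∨ ∀ ψ > 0, ¬ Clp S (T.No s ψ))} := ⟨_, rfl⟩
  have h0 : (0 : ℝ) ∈ X := by
    rw [hX]
    exact ⟨le_rfl, zero_le_one, Or.inl rfl⟩
  have hb : BddAbove X := ⟨1, fun s hs => by rw [hX] at hs; exact hs.2.1⟩
  refine ⟨sSup X, le_csSup hb h0, csSup_le ⟨0, h0⟩ fun s hs => by rw [hX] at hs; exact hs.2.1,
    ?_, ?_, ?_⟩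
  · intro τ hτ J₁
    obtain ⟨s, hs, hlt⟩ : ∃ s ∈ X, sSup X - τ < s :=
      exists_lt_of_lt_csSup ⟨0, h0⟩ (by linarith)
    rw [hX] at hs
    rcases hs.2.2 with h1 | h1
    · obtain ⟨J, hJ, F, A, hA⟩ := hS τ hτ J₁
      exact ⟨J, hJ, F, A, hA, T.triv (by linarith)⟩
    · by_contra hcon
      push Not at hcon
      refine h1 (τ / 2) (half_pos hτ) (Clp.base (τ / 2) (half_pos hτ) J₁ ?_)
      intro J hJ F A hA B hB hP hQ
      refine hcon J hJ F B ⟨?_, T.anti hlt.le hQ⟩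
      exact S.mono (by linarith) (S.res (half_pos hτ).le hA hB hP)
  · intro h hh h1
    by_contra hcon
    push Not at hcon
    have : h ∈ X := by
      rw [hX]
      exact ⟨(le_csSup hb h0).trans hh.le, h1, Or.inr hcon⟩
    linarith [le_csSup hb this]
  · intro g hg0 hg1 hg
    refine le_csSup hb ?_
    rw [hX]
    exact ⟨hg0, hg1, Or.inr hg⟩

/-- Attained on events of arbitrarily small cost means below the threshold. -/
theorem le_of_att {S : PCl m} (hS : S.Ne) {T : Thr m} {s g : ℝ}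
    (hb : ∀ h : ℝ, s < h → h ≤ 1 → ∃ ψ > 0, Clp S (T.No h ψ)) (hg : g ≤ 1)
    (h : ∀ δ > 0, Clp S (fun J F A => ∃ B : F.Ω → Prop, Sub B A ∧
      Real.exp (-(δ * J)) * Pe F.p A ≤ Pe F.p B ∧ T.Q g J F B)) : g ≤ s := by
  by_contra hcon
  push Not at hcon
  obtain ⟨ψ, hψ, hc⟩ := hb g hcon hg
  refine Clp.not_false hS (Clp.mono (J₂ := 0) (hc.and (h ψ hψ)) ?_)
  rintro J - F A ⟨h1, B, h2, h3, h4⟩
  exact h1 B h2 h3 h4

/-! ### Subclasses -/

/-- The class `S'` is a subclass of `S`, for small defects. -/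
def PCl.Le (S' S : PCl m) : Prop := ∃ τ₀ : ℝ, 0 < τ₀ ∧ ∀ τ : ℝ, 0 < τ → τ ≤ τ₀ →
  ∀ (J : ℕ) (F : Fam m J) (A : F.Ω → Prop), S'.St τ J F A → S.St τ J F A

theorem PCl.Le.refl (S : PCl m) : S.Le S := ⟨1, one_pos, fun _ _ _ _ _ _ h => h⟩

theorem PCl.Le.trans {S₁ S₂ S₃ : PCl m} (h : S₁.Le S₂) (h' : S₂.Le S₃) : S₁.Le S₃ := by
  obtain ⟨t, ht, h⟩ := h
  obtain ⟨t', ht', h'⟩ := h'
  exact ⟨min t t', lt_min ht ht', fun τ hτ hle J F A hA =>
    h' τ hτ (hle.trans (min_le_right _ _)) J F A (h τ hτ (hle.trans (min_le_left _ _)) J F A hA)⟩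

theorem PCl.sl_le (S : PCl m) (P : Sld m) : (S.sl P).Le S :=
  ⟨1, one_pos, fun _ _ _ _ _ _ h => h.1⟩

/-- A claim in a class holds in every subclass. -/
theorem Clp.le {S S' : PCl m} (h : S'.Le S) {Φ : Stat m} (hc : Clp S Φ) : Clp S' Φ := by
  obtain ⟨t, ht, h⟩ := h
  exact hc.sub ht h

/-- **Diagonal lemma.** For every subclass and every `n` there is a selection, a sliding property
which defines a nonempty subclass. Then there is one nonempty subclass for all selections. -/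
theorem PCl.Ne.diag {S : PCl m} (hS : S.Ne) (R : ℕ → PCl m → Sld m → Prop)
    (h : ∀ (n : ℕ) (S₁ : PCl m), S₁.Le S → S₁.Ne → ∃ P, R n S₁ P ∧ (S₁.sl P).Ne) :
    ∃ S' : PCl m, S'.Ne ∧
      (∀ (τ : ℝ) (J : ℕ) (F : Fam m J) (A : F.Ω → Prop), S'.St τ J F A → S.St τ J F A) ∧
      (∃ P, R 0 S P ∧ S'.Le (S.sl P)) ∧
      ∀ n, ∃ (S₁ : PCl m) (P : Sld m), R n S₁ P ∧ S₁.Le S ∧ S₁.Ne ∧ S'.Le (S₁.sl P) ∧
        ∀ (τ : ℝ) (J : ℕ) (F : Fam m J) (A : F.Ω → Prop), (n + 1) * τ ≤ 1 → S'.St τ J F A →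
          (S₁.sl P).St τ J F A := by
  classical
  obtain ⟨nx, hnx⟩ : ∃ nx : ℕ → {S₁ : PCl m // S₁.Le S ∧ S₁.Ne} → Sld m,
      ∀ n S₁, R n S₁.1 (nx n S₁) ∧ (S₁.1.sl (nx n S₁)).Ne := by
    exact ⟨fun n S₁ => (h n S₁.1 S₁.2.1 S₁.2.2).choose,
      fun n S₁ => (h n S₁.1 S₁.2.1 S₁.2.2).choose_spec⟩
  obtain ⟨C, hC0, hCs⟩ : ∃ C : ℕ → {S₁ : PCl m // S₁.Le S ∧ S₁.Ne}, C 0 = ⟨S, PCl.Le.refl S, hS⟩ ∧
      ∀ n, (C (n + 1)).1 = (C n).1.sl (nx n (C n)) := by
    refine ⟨fun n => Nat.rec ⟨S, PCl.Le.refl S, hS⟩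
      (fun n Sn => ⟨Sn.1.sl (nx n Sn), (PCl.sl_le _ _).trans Sn.2.1, (hnx n Sn).2⟩) n, rfl,
      fun n => rfl⟩
  have hdec : ∀ (n k : ℕ) (τ : ℝ) (J : ℕ) (F : Fam m J) (A : F.Ω → Prop),
      (C (n + k)).1.St τ J F A → (C n).1.St τ J F A := by
    intro n k
    induction k with
    | zero => exact fun _ _ _ _ h => h
    | succ k ih =>
      intro τ J F A h
      rw [← add_assoc, hCs] at h
      exact ih τ J F A h.1
  obtain ⟨S', hS'⟩ : ∃ S' : PCl m, S' =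
      { St := fun τ J F A => ∀ n : ℕ, (n : ℝ) * τ ≤ 1 → (C n).1.St τ J F A
        mono := by
          intro τ τ' J F A h hA n hn
          exact (C n).1.mono h (hA n
            ((mul_le_mul_of_nonneg_left h (Nat.cast_nonneg n)).trans hn))
        res := by
          intro τ τ' J F A B h hA hB hP n hn
          refine (C n).1.res h (hA n (le_trans ?_ hn)) hB hP
          exact mul_le_mul_of_nonneg_left (by linarith) (Nat.cast_nonneg n) } := ⟨_, rfl⟩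
  have hst : ∀ (τ : ℝ) (J : ℕ) (F : Fam m J) (A : F.Ω → Prop), S'.St τ J F A →
      ∀ n : ℕ, (n : ℝ) * τ ≤ 1 → (C n).1.St τ J F A := by
    intro τ J F A h
    rw [hS'] at h
    exact h
  have hall : ∀ (n : ℕ) (τ : ℝ) (J : ℕ) (F : Fam m J) (A : F.Ω → Prop), (n + 1) * τ ≤ 1 →
      S'.St τ J F A → ((C n).1.sl (nx n (C n))).St τ J F A := by
    intro n τ J F A hn h
    have := hst τ J F A h (n + 1) (by push_cast; exact hn)
    rwa [hCs] at this
  have hLe : ∀ n : ℕ, S'.Le ((C n).1.sl (nx n (C n))) := by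
    intro n
    refine ⟨1 / (n + 1), by positivity, fun τ hτ0 hτ J F A hA => hall n τ J F A ?_ hA⟩
    rw [le_div_iff₀ (by positivity)] at hτ
    linarith
  refine ⟨S', ?_, ?_, ?_, ?_⟩
  · intro τ hτ J₁
    obtain ⟨N, hN⟩ : ∃ N : ℕ, N = ⌊1 / τ⌋₊ := ⟨_, rfl⟩
    obtain ⟨J, hJ, F, A, hA⟩ := (C N).2.2 τ hτ J₁
    refine ⟨J, hJ, F, A, ?_⟩
    rw [hS']
    intro n hn
    have hle : n ≤ N := by
      rw [hN]
      refine Nat.le_floor ?_
      rwa [le_div_iff₀ hτ]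
    obtain ⟨k, rfl⟩ := Nat.exists_eq_add_of_le hle
    exact hdec n k τ J F A hA
  · intro τ J F A h
    have := hst τ J F A h 0 (by simp)
    rwa [hC0] at this
  · have h1 := (hnx 0 (C 0)).1
    have h2 := hLe 0
    rw [hC0] at h1 h2
    exact ⟨_, h1, h2⟩
  · exact fun n => ⟨(C n).1, nx n (C n), (hnx n (C n)).1, (C n).2.1, (C n).2.2, hLe n, hall n⟩

/-- **Limit thresholds.** For countably many threshold properties there are numbers and a nonempty
subclass, in which they are attained everywhere up to the defect, and not exceeded on large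
events. -/
theorem ext (S : PCl m) (hS : S.Ne) (T : ℕ → Thr m) : ∃ (s : ℕ → ℝ) (S' : PCl m),
    (∀ i, 0 ≤ s i ∧ s i ≤ 1) ∧
    (∀ (τ : ℝ) (J : ℕ) (F : Fam m J) (A : F.Ω → Prop), S'.St τ J F A → S.St τ J F A) ∧
    S'.Ne ∧
    (∀ (i : ℕ) (τ : ℝ) (J : ℕ) (F : Fam m J) (A : F.Ω → Prop), (i + 1) * τ ≤ 1 →
      S'.St τ J F A → (T i).Q (s i - τ) J F A) ∧
    (∀ (i : ℕ) (h : ℝ), s i < h → h ≤ 1 → ∃ ψ > 0, Clp S' ((T i).No h ψ)) ∧
    ∀ g : ℝ, 0 ≤ g → g ≤ 1 → (∀ ψ > 0, ¬ Clp S ((T 0).No g ψ)) → g ≤ s 0 := by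
  obtain ⟨S', h1, h2, ⟨P₀, h3, h3'⟩, h4⟩ := hS.diag
    (fun n S₁ P => ∃ s : ℝ, P = (T n).sld s ∧ 0 ≤ s ∧ s ≤ 1 ∧
      (∀ h : ℝ, s < h → h ≤ 1 → ∃ ψ > 0, Clp S₁ ((T n).No h ψ)) ∧
      ∀ g : ℝ, 0 ≤ g → g ≤ 1 → (∀ ψ > 0, ¬ Clp S₁ ((T n).No g ψ)) → g ≤ s) (by
    intro n S₁ _ hn
    obtain ⟨s, a1, a2, a3, a4, a5⟩ := hn.thr (T n)
    exact ⟨_, ⟨s, rfl, a1, a2, a4, a5⟩, a3⟩)
  choose C P hR hle hne hle' hall using h4
  choose s hs using hR
  obtain ⟨s₀, k1, k2, k3, k4, k5⟩ := h3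
  have hb : ∀ (i : ℕ) (h : ℝ), s i < h → h ≤ 1 → ∃ ψ > 0, Clp S' ((T i).No h ψ) := by
    intro i h a1 a2
    obtain ⟨ψ, hψ, hc⟩ := (hs i).2.2.2.1 h a1 a2
    exact ⟨ψ, hψ, (hc.le (PCl.sl_le _ (P i))).le (hle' i)⟩
  have ha : ∀ (i : ℕ) (τ : ℝ) (J : ℕ) (F : Fam m J) (A : F.Ω → Prop), (i + 1) * τ ≤ 1 →
      S'.St τ J F A → (T i).Q (s i - τ) J F A := by
    intro i τ J F A hi h
    have := (hall i τ J F A hi h).2
    rw [(hs i).1] at this
    exact this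
  refine ⟨s, S', fun i => ⟨(hs i).2.1, (hs i).2.2.1⟩, h2, h1, ha, hb, ?_⟩
  intro g g0 g1 g2
  refine le_trans (k5 g g0 g1 g2) ?_
  -- the threshold found at the start is attained in the final class
  by_contra hlt
  push Not at hlt
  obtain ⟨ψ, hψ, hc⟩ := hb 0 ((s 0 + s₀) / 2) (by linarith) (by linarith)
  refine Clp.not_false h1 (Clp.mono (J₂ := 0) (hc.and (Clp.le h3' (Clp.base (S := S.sl P₀)
    (Φ := fun J F A => (T 0).Q ((s 0 + s₀) / 2) J F A) ((s₀ - s 0) / 2) (by linarith) 0 ?_))) ?_)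
  · intro J _ F A hA
    have := hA.2
    rw [k1] at this
    exact (T 0).anti (by linarith) this
  · rintro J - F A ⟨q1, q2⟩
    refine q1 A (fun _ h => h) ?_ q2
    have : Real.exp (-(ψ * J)) ≤ 1 := by
      rw [Real.exp_le_one_iff]
      have : 0 ≤ ψ * J := by positivity
      linarith
    calc _ ≤ 1 * Pe F.p A := mul_le_mul_of_nonneg_right this (Pe_nonneg F.isLaw A)
      _ = _ := one_mul _

/-! ### Numbers of a class -/

/-- The number `s` is the threshold of the property `q` in the class `S`. -/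
def PNum (S : PCl m) (q : ℝ → Stat m) (s : ℝ) : Prop :=
  (∀ h : ℝ, 0 < h → Clp S (q (s - h))) ∧
    ∀ h : ℝ, 0 < h → Clp S (fun J F A => ¬ q (s + h) J F A)

theorem PNum.le {S S' : PCl m} {q : ℝ → Stat m} {s : ℝ} (h : S'.Le S) (hs : PNum S q s) :
    PNum S' q s := ⟨fun e he => (hs.1 e he).le h, fun e he => (hs.2 e he).le h⟩

/-- The number is unique in a nonempty class. -/
theorem PNum.unique {S : PCl m} (hS : S.Ne) {q : ℝ → Stat m} {s s' : ℝ}
    (hq : ∀ (t t' : ℝ) (J : ℕ) (F : Fam m J) (A : F.Ω → Prop), t' ≤ t → q t J F A → q t' J F A)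
    (hs : PNum S q s) (hs' : PNum S q s') : s = s' := by
  have key : ∀ a b : ℝ, PNum S q a → PNum S q b → ¬ a < b := by
    intro a b ha hb hab
    refine Clp.not_false hS (Clp.mono (J₂ := 0) ((ha.2 ((b - a) / 2) (by linarith)).and
      (hb.1 ((b - a) / 2) (by linarith))) ?_)
    rintro J - F A ⟨h1, h2⟩
    exact h1 (hq _ _ J F A (by linarith) h2)
  rcases lt_trichotomy s s' with h | h | h
  · exact (key _ _ hs hs' h).elim
  · exact h
  · exact (key _ _ hs' hs h).elim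

/-- One threshold of a hereditary monotone property. -/
theorem PCl.Ne.num {S : PCl m} (hS : S.Ne) (q : ℝ → Stat m)
    (her : ∀ (s : ℝ) (J : ℕ) (F : Fam m J), Hered (q s J F))
    (anti : ∀ (s s' : ℝ) (J : ℕ) (F : Fam m J) (A : F.Ω → Prop), s' ≤ s → q s J F A → q s' J F A)
    {a b : ℝ} (ha : Clp S (q a)) (hb : Clp S (fun J F A => ¬ q b J F A)) :
    ∃ s : ℝ, a ≤ s ∧ s ≤ b ∧ ∃ P : Sld m, (S.sl P).Ne ∧ PNum (S.sl P) q s ∧
      P.P = (fun τ J F A => q (s - τ) J F A ∨ s - τ ≤ a) := by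
  obtain ⟨X, hX⟩ : ∃ X : Set ℝ, X = {s : ℝ | a ≤ s ∧ s ≤ b ∧
      (s = a ∨ ¬ Clp S (fun J F A => ¬ q s J F A))} := ⟨_, rfl⟩
  have hab : a ≤ b := by
    by_contra hcon
    push Not at hcon
    refine Clp.not_false hS (Clp.mono (J₂ := 0) (ha.and hb) ?_)
    rintro J - F A ⟨h1, h2⟩
    exact h2 (anti _ _ J F A hcon.le h1)
  have h0 : a ∈ X := by
    rw [hX]
    exact ⟨le_rfl, hab, Or.inl rfl⟩
  have hbd : BddAbove X := ⟨b, fun s hs => by rw [hX] at hs; exact hs.2.1⟩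
  obtain ⟨s, hs⟩ : ∃ s, s = sSup X := ⟨_, rfl⟩
  have has : a ≤ s := by rw [hs]; exact le_csSup hbd h0
  have hsb : s ≤ b := by
    rw [hs]
    exact csSup_le ⟨a, h0⟩ fun s hs => by rw [hX] at hs; exact hs.2.1
  obtain ⟨P, hP⟩ : ∃ P : Sld m, P.P = (fun τ J F A => q (s - τ) J F A ∨ s - τ ≤ a) :=
    ⟨{ P := fun τ J F A => q (s - τ) J F A ∨ s - τ ≤ a
       mono := by
         rintro τ τ' J F A h (hA | hA)
         · exact Or.inl (anti _ _ J F A (by linarith) hA)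
         · exact Or.inr (by linarith)
       res := by
         rintro τ τ' J F A B h (hA | hA) hB _
         · exact Or.inl (anti _ _ J F B (by linarith) (her _ J F A B hB hA))
         · exact Or.inr (by linarith) }, rfl⟩
  refine ⟨s, has, hsb, P, ?_, ⟨fun h hh => ?_, fun h hh => ?_⟩, hP⟩
  · intro τ hτ J₁
    obtain ⟨t, ht, hlt⟩ : ∃ t ∈ X, s - τ < t := by
      rw [hs]
      exact exists_lt_of_lt_csSup ⟨a, h0⟩ (by linarith)
    rw [hX] at ht
    rcases ht.2.2 with h1 | h1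
    · obtain ⟨J, hJ, F, A, hA⟩ := hS τ hτ J₁
      refine ⟨J, hJ, F, A, hA, ?_⟩
      rw [hP]
      exact Or.inr (by linarith)
    · by_contra hcon
      push Not at hcon
      refine h1 (Clp.base τ hτ J₁ fun J hJ F A hA hQ => hcon J hJ F A ⟨hA, ?_⟩)
      rw [hP]
      exact Or.inl (anti _ _ J F A hlt.le hQ)
  · refine Clp.mono (J₂ := 0) ((ha.le (PCl.sl_le S P)).and (Clp.base (S := S.sl P)
      (Φ := P.P h) h hh 0 fun J _ F A hA => hA.2)) ?_
    rintro J - F A ⟨q1, q2⟩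
    rw [hP] at q2
    rcases q2 with q2 | q2
    · exact q2
    · exact anti _ _ J F A q2 q1
  · refine Clp.le (PCl.sl_le S P) ?_
    by_cases hle : s + h ≤ b
    · by_contra hcon
      have : s + h ∈ X := by
        rw [hX]
        exact ⟨by linarith, hle, Or.inr hcon⟩
      have := le_csSup hbd this
      rw [← hs] at this
      linarith
    · refine Clp.mono (J₂ := 0) hb ?_
      intro J _ F A h1 h2
      exact h1 (anti _ _ J F A (by linarith) h2)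

/-- **Limit thresholds**, second form: hereditary monotone properties which hold for some number
and fail for some number. -/
theorem ext_num {S : PCl m} (hS : S.Ne) (q : ℕ → ℝ → Stat m)
    (her : ∀ (i : ℕ) (s : ℝ) (J : ℕ) (F : Fam m J), Hered (q i s J F))
    (anti : ∀ (i : ℕ) (s s' : ℝ) (J : ℕ) (F : Fam m J) (A : F.Ω → Prop), s' ≤ s →
      q i s J F A → q i s' J F A)
    (lo : ∀ i, ∃ a : ℝ, Clp S (q i a)) (up : ∀ i, ∃ b : ℝ, Clp S (fun J F A => ¬ q i b J F A)) :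
    ∃ S' : PCl m, S'.Ne ∧
      (∀ (τ : ℝ) (J : ℕ) (F : Fam m J) (A : F.Ω → Prop), S'.St τ J F A → S.St τ J F A) ∧
      ∀ i, ∃ s, PNum S' (q i) s := by
  obtain ⟨S', h1, h2, -, h4⟩ := hS.diag
    (fun n S₁ P => ∃ s : ℝ, PNum (S₁.sl P) (q n) s) (by
    intro n S₁ hle hn
    obtain ⟨a, ha⟩ := lo n
    obtain ⟨b, hb⟩ := up n
    obtain ⟨s, -, -, P, hP, hs, -⟩ := hn.num (q n) (her n) (anti n) (ha.le hle) (hb.le hle)
    exact ⟨P, ⟨s, hs⟩, hP⟩)
  refine ⟨S', h1, h2, fun i => ?_⟩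
  obtain ⟨S₁, P, ⟨s, hs⟩, -, -, hle, -⟩ := h4 i
  exact ⟨s, hs.le hle⟩

/-! ### Rates -/

/-- The functional of the family has the rate `r`, up to the defect. -/
def rtSld (f : ∀ J : ℕ, Fam m J → ℝ) (r : ℝ) : Sld m where
  P τ J F _ := |f J F - r * J| ≤ τ * J
  mono h hA := hA.trans (mul_le_mul_of_nonneg_right h (Nat.cast_nonneg _))
  res := by
    intro τ τ' J F A B h hA _ _
    exact hA.trans (mul_le_mul_of_nonneg_right (by linarith) (Nat.cast_nonneg _))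

/-- One rate, by compactness. -/
theorem PCl.Ne.rate {S : PCl m} (hS : S.Ne) (f : ∀ J : ℕ, Fam m J → ℝ) {M : ℝ}
    (hf : Clp S (fun J F _ => |f J F| ≤ M * J)) :
    ∃ r : ℝ, |r| ≤ M ∧ (S.sl (rtSld f r)).Ne := by
  by_contra hcon
  push Not at hcon
  have key : ∀ r : ℝ, ∃ τ : ℝ, 0 < τ ∧ ∃ J₁ : ℕ, |r| ≤ M → ∀ J ≥ J₁, ∀ (F : Fam m J)
      (A : F.Ω → Prop), ¬ (S.sl (rtSld f r)).St τ J F A := by
    intro r
    by_cases hr : |r| ≤ M
    · have := hcon r hr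
      unfold PCl.Ne at this
      push Not at this
      obtain ⟨τ, hτ, J₁, h⟩ := this
      exact ⟨τ, hτ, J₁, fun _ => h⟩
    · exact ⟨1, one_pos, 0, fun h => absurd h hr⟩
  choose τ hτ J₁ hn using key
  obtain ⟨t, htM, ht⟩ := (isCompact_Icc (a := -M) (b := M)).elim_nhds_subcover
    (fun r => Metric.ball r (τ r)) (fun r _ => Metric.ball_mem_nhds r (hτ r))
  obtain ⟨e, he0, he⟩ : ∃ e > 0, ∀ r ∈ t, e ≤ τ r := by
    rcases t.eq_empty_or_nonempty with h | h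
    · exact ⟨1, one_pos, fun r hr => by rw [h] at hr; exact absurd hr (Finset.notMem_empty _)⟩
    · have hne : (t.image τ).Nonempty := h.image τ
      refine ⟨(t.image τ).min' hne, ?_, fun i hi => ?_⟩
      · obtain ⟨i, -, hi⟩ := Finset.mem_image.1 (Finset.min'_mem _ hne)
        rw [← hi]
        exact hτ i
      · exact Finset.min'_le _ _ (Finset.mem_image.2 ⟨i, hi, rfl⟩)
  obtain ⟨J, hJ, F, A, hA, hfA⟩ := hf.real hS he0 (∑ r ∈ t, J₁ r + 1)
  have hJ0 : (0 : ℝ) < J := by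
    have : 0 < J := by omega
    exact_mod_cast this
  have hmem : f J F / J ∈ Set.Icc (-M) M := by
    rw [abs_le] at hfA
    rw [Set.mem_Icc, le_div_iff₀ hJ0, div_le_iff₀ hJ0]
    constructor <;> linarith [hfA.1, hfA.2]
  have hmem' := ht hmem
  rw [Set.mem_iUnion₂] at hmem'
  obtain ⟨r, hr, hball⟩ := hmem'
  rw [Metric.mem_ball, Real.dist_eq] at hball
  have hval : |f J F - r * J| ≤ τ r * J := by
    have e1 : f J F - r * J = (f J F / J - r) * J := by field_simp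
    rw [e1, abs_mul, abs_of_pos hJ0]
    exact mul_le_mul_of_nonneg_right hball.le hJ0.le
  have hrM : |r| ≤ M := abs_le.2 (htM r hr)
  refine hn r hrM J ?_ F A ⟨S.mono (he r hr) hA, hval⟩
  have := Finset.single_le_sum (f := J₁) (fun _ _ => Nat.zero_le _) hr
  omega


/-- **Limit thresholds and rates** together. -/
theorem ext_mix {S : PCl m} (hS : S.Ne) (q : ℕ → ℝ → Stat m)
    (her : ∀ (i : ℕ) (s : ℝ) (J : ℕ) (F : Fam m J), Hered (q i s J F))
    (anti : ∀ (i : ℕ) (s s' : ℝ) (J : ℕ) (F : Fam m J) (A : F.Ω → Prop), s' ≤ s →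
      q i s J F A → q i s' J F A)
    (lo : ∀ i, ∃ a : ℝ, Clp S (q i a)) (up : ∀ i, ∃ b : ℝ, Clp S (fun J F A => ¬ q i b J F A))
    (f : ℕ → ∀ J : ℕ, Fam m J → ℝ) (M : ℕ → ℝ)
    (hf : ∀ i, Clp S (fun J F _ => |f i J F| ≤ M i * J)) :
    ∃ S' : PCl m, S'.Ne ∧
      (∀ (τ : ℝ) (J : ℕ) (F : Fam m J) (A : F.Ω → Prop), S'.St τ J F A → S.St τ J F A) ∧
      (∀ i, ∃ s, PNum S' (q i) s) ∧
      ∀ i, ∃ r, |r| ≤ M i ∧ ∀ h : ℝ, 0 < h → Clp S' (fun J F _ => |f i J F - r * J| ≤ h * J) := by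
  classical
  obtain ⟨S', h1, h2, -, h4⟩ := hS.diag
    (fun n S₁ P => (n % 2 = 0 → ∃ s : ℝ, PNum (S₁.sl P) (q (n / 2)) s) ∧
      (n % 2 = 1 → ∃ r : ℝ, |r| ≤ M (n / 2) ∧ P = rtSld (f (n / 2)) r)) (by
    intro n S₁ hle hn
    rcases Nat.mod_two_eq_zero_or_one n with h0 | h0
    · obtain ⟨a, ha⟩ := lo (n / 2)
      obtain ⟨b, hb⟩ := up (n / 2)
      obtain ⟨s, -, -, P, hP, hs, -⟩ := hn.num (q (n / 2)) (her _) (anti _) (ha.le hle)
        (hb.le hle)
      exact ⟨P, ⟨fun _ => ⟨s, hs⟩, fun h => by omega⟩, hP⟩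
    · obtain ⟨r, hr, hP⟩ := hn.rate (f (n / 2)) ((hf (n / 2)).le hle)
      exact ⟨_, ⟨fun h => by omega, fun _ => ⟨r, hr, rfl⟩⟩, hP⟩)
  refine ⟨S', h1, h2, fun i => ?_, fun i => ?_⟩
  · obtain ⟨S₁, P, hR, -, -, hle, -⟩ := h4 (2 * i)
    obtain ⟨s, hs⟩ := hR.1 (by omega)
    have e : 2 * i / 2 = i := by omega
    rw [e] at hs
    exact ⟨s, hs.le hle⟩
  · obtain ⟨S₁, P, hR, -, -, hle, -⟩ := h4 (2 * i + 1)
    obtain ⟨r, hr, hP⟩ := hR.2 (by omega)
    have e : (2 * i + 1) / 2 = i := by omega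
    rw [e] at hr hP
    refine ⟨r, hr, fun h hh => Clp.le hle ?_⟩
    refine Clp.base h hh 0 fun J _ F A hA => ?_
    have := hA.2
    rw [hP] at this
    exact this

/-- Negative claims about hereditary properties hold without stability. -/
theorem Clp.neg_base {S : PCl m} {Q : Stat m} (hQ : ∀ (J : ℕ) (F : Fam m J), Hered (Q J F))
    (hc : Clp S (fun J F A => ¬ Q J F A)) : ∃ c > 0, ∃ J₁ : ℕ, ∀ J ≥ J₁, ∀ (F : Fam m J)
      (A : F.Ω → Prop), S.St c J F A → ¬ Q J F A := by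
  obtain ⟨c, hc0, J₁, h⟩ := hc.win 1 one_pos
  refine ⟨c, hc0, J₁, fun J hJ F A hA hQA => ?_⟩
  obtain ⟨B, hB, -, hn⟩ := h J hJ F A hA
  exact hn (hQ J F A B hB hQA)

/-- A value which is attained on events of arbitrarily small cost is at most the number of the
class. -/
theorem PNum.att {S : PCl m} (hS : S.Ne) {q : ℝ → Stat m} {s g : ℝ}
    (her : ∀ (s : ℝ) (J : ℕ) (F : Fam m J), Hered (q s J F)) (hs : PNum S q s)
    (h : ∀ δ > 0, Clp S (fun J F A => ∃ B : F.Ω → Prop, Sub B A ∧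
      Real.exp (-(δ * J)) * Pe F.p A ≤ Pe F.p B ∧ q g J F B)) : g ≤ s := by
  by_contra hcon
  push Not at hcon
  have h1 := hs.2 (g - s) (by linarith)
  have e : s + (g - s) = g := by ring
  rw [e] at h1
  obtain ⟨c, hc, J₁, hn⟩ := Clp.neg_base (her g) h1
  obtain ⟨J, hJ, F, A, hA, B, hB, hP, hQ⟩ := (h (c / 2) (half_pos hc)).real hS (half_pos hc) J₁
  refine hn J hJ F B ?_ hQ
  exact S.mono (by linarith) (S.res (half_pos hc).le hA hB hP)

/-- A value which fails on events of arbitrarily small cost is at least the number of the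
class. -/
theorem PNum.le_of_not {S : PCl m} (hS : S.Ne) {q : ℝ → Stat m} {s g : ℝ}
    (anti : ∀ (s s' : ℝ) (J : ℕ) (F : Fam m J) (A : F.Ω → Prop), s' ≤ s → q s J F A →
      q s' J F A) (hs : PNum S q s)
    (h : Clp S (fun J F A => ¬ q g J F A)) : s ≤ g := by
  by_contra hcon
  push Not at hcon
  refine Clp.not_false hS (Clp.mono (J₂ := 0) (h.and (hs.1 ((s - g) / 2) (by linarith))) ?_)
  rintro J - F A ⟨h1, h2⟩
  exact h1 (anti _ _ J F A (by linarith) h2)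

/-! ### Spread fans -/

/-- The threshold property: the fans are within `2 ^ (-s J)` of affine `j`-planes. -/
def plThr (m j : ℕ) : Thr m where
  Q s J F A := PlU j (1 / 2 ^ ⌊s * J⌋₊) (Fam.pt F) F.d A
  her s J F := PlU.hered _ _ _ _
  anti := by
    intro s s' J F A h hA
    refine hA.mono (inv_mono (Nat.floor_le_floor ?_))
    exact mul_le_mul_of_nonneg_right h (Nat.cast_nonneg J)
  triv := by
    intro s J F A h
    have h1 : ⌊s * (J : ℝ)⌋₊ = 0 := by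
      refine Nat.floor_of_nonpos ?_
      exact mul_nonpos_of_nonpos_of_nonneg h (Nat.cast_nonneg J)
    rw [h1]
    refine ⟨fun _ => (fun _ => 0, fun _ _ => 0), fun ω _ => ⟨fun _ => 0, fun i => ?_⟩⟩
    simpa using F.dir ω i

theorem plThr_no {j : ℕ} {s ψ : ℝ} {J : ℕ} {F : Fam m J} {A : F.Ω → Prop} :
    (plThr m j).No s ψ J F A ↔ Sp F j ψ s A := Iff.rfl

/-- **Structural spread by contradiction.** If the fans of a nonempty class are not structurally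
spread, then there is a nonempty subclass in which the straightness of the fans is a positive
number, and all thresholds are numbers. -/
theorem sps_of_limit {S : FCl m} (hS : S.toP.Ne) (j : ℕ) (T : ℕ → Thr m) (hT : T 0 = plThr m j)
    (H : ∀ (s : ℕ → ℝ) (S' : PCl m), (∀ i, 0 ≤ s i ∧ s i ≤ 1) → 0 < s 0 →
      (∀ (τ : ℝ) (J : ℕ) (F : Fam m J) (A : F.Ω → Prop), S'.St τ J F A → S.St τ F A) →
      S'.Ne →
      (∀ (i : ℕ) (τ : ℝ) (J : ℕ) (F : Fam m J) (A : F.Ω → Prop), (i + 1) * τ ≤ 1 →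
        S'.St τ J F A → (T i).Q (s i - τ) J F A) →
      (∀ (i : ℕ) (h : ℝ), s i < h → h ≤ 1 → ∃ ψ > 0, Clp S' ((T i).No h ψ)) → False) :
    SPS S j := by
  by_contra hcon
  unfold SPS at hcon
  push Not at hcon
  obtain ⟨g, hg, hn⟩ := hcon
  obtain ⟨s, S', h1, h2, h3, h4, h5, h6⟩ := ext S.toP hS T
  refine H s S' h1 ?_ h2 h3 h4 h5
  refine lt_of_lt_of_le (lt_min hg one_pos) (h6 (min g 1) (lt_min hg one_pos).le
    (min_le_right _ _) ?_)
  intro ψ hψ hc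
  rw [hT] at hc
  refine hn ψ hψ (Clg.mono (J₂ := 0) (clg_of_clp hc) ?_)
  intro J _ F A h
  exact Sp.mono le_rfl (min_le_left _ _) h

end Pool.PB
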