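import Pool.Agent.H36.PB.RowU

/-!
# Implicit labels on the grid, and the step at the top row

`ClG F i₁ r D w P A`: closed label with an implicit equation of degree at most `D` of the graph of
the coordinate `i₁`, at the grid points of some resolution between `P` and `r`. `JSTT`: the lossy
step for labels which are visible at exact points, with such a label on the whole window as its
output; one scale of spread, chosen before the freedoms and before the class.
-/

set_option autoImplicit false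

namespace Pool.PB

open Finset Real MvPolynomial
open Pool.Agent.H49.Ent Pool.Agent.H32.Dense Pool.STK Pool.KA Pool.KSAT Pool.K2S

variable {m J : ℕ}

/-- The space-time grid point of resolution `P`: `none` is the passive coordinate, the variable
`i₁` is the time. -/
noncomputable def txg (F : Fam m J) (i₁ : Fin m) (P : ℕ) (ω : F.Ω) (o : Option (Fin m)) : ℝ :=
  o.elim ((F.X P ω i₁ : ℝ) / 2 ^ P)
    (fun j => if j = i₁ then (F.T1 P ω : ℝ) / 2 ^ P else (F.X P ω j : ℝ) / 2 ^ P)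

/-- **Closed label with an implicit equation** of degree at most `D`: a function `z` of the point of
resolution `r`, which is a function of the line and of the window of length `2 ^ (-w)`; the grid
point of the sample, of some resolution `P₁` between `P` and `r`, is near a root of the polynomial
`R z`, up to `2 ^ (-P)`. -/
def ClG (F : Fam m J) (i₁ : Fin m) (r D w P : ℕ) (A : F.Ω → Prop) : Prop :=
  ∃ (P₁ : ℕ) (V : Type) (z : (Fin m → ℤ) × (ℕ × F.ζ) → V)
    (z' : ((Fin m → ℝ) × (Fin m → ℝ)) × F.ζ × ℕ → V)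
    (R : V → MvPolynomial (Option (Fin m)) ℝ), P ≤ P₁ ∧ P₁ ≤ r ∧
      (∀ v, (R v).totalDegree ≤ D) ∧ ∀ ω, A ω →
      z (ptr F r ω) = z' (slam F w ω) ∧
      eval (txg F i₁ P₁ ω) (pderiv none (R (z (ptr F r ω)))) ≠ 0 ∧
      |eval (txg F i₁ P₁ ω) (R (z (ptr F r ω)))| ≤
        1 / 2 ^ P * |eval (txg F i₁ P₁ ω) (pderiv none (R (z (ptr F r ω))))|

theorem ClG.hered (F : Fam m J) (i₁ : Fin m) (r D w P : ℕ) : Hered (ClG F i₁ r D w P) := by
  rintro A B hB ⟨P₁, V, z, z', R, h0, h1, h2, h3⟩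
  exact ⟨P₁, V, z, z', R, h0, h1, h2, fun ω hω => h3 ω (hB ω hω)⟩

theorem ClG.mono {F : Fam m J} {i₁ : Fin m} {r r' D D' w P P' : ℕ} {A : F.Ω → Prop}
    (hr : r ≤ r') (hD : D ≤ D') (hP : P' ≤ P) (h : ClG F i₁ r D w P A) :
    ClG F i₁ r' D' w P' A := by
  obtain ⟨P₁, V, z, z', R, h0, h1, h2, h3⟩ := h
  obtain ⟨φ, hφ⟩ := ptr_coarse F hr
  refine ⟨P₁, V, fun y => z (φ y), z', R, hP.trans h0, h1.trans hr, fun v => (h2 v).trans hD,
    fun ω hω => ?_⟩
  obtain ⟨h4, h5, h6⟩ := h3 ω hω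
  rw [hφ ω] at h4 h5 h6
  exact ⟨h4, h5, h6.trans (mul_le_mul_of_nonneg_right (inv_mono hP) (abs_nonneg _))⟩

/-- **(JSTT)** The lossy step at the top row, with an implicit label on the whole window: the
degree `D` and the constant `Cs` depend on the tail `r` and on the chart `h₁` only; one scale `g`
of spread and one error `η` of the tail, chosen before the freedoms `ψ`, `κ` and the class. -/
def JSTT (m : ℕ) : Prop :=
  ∀ r h₁ : ℝ, 0 < r → 0 < h₁ → ∃ D Cs E₀ : ℕ, ∀ E ≥ E₀, 0 < E → ∀ K : ℕ, ∃ N₁ : ℕ, ∀ N ≥ N₁,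
    ∀ d : ℕ, N = E * d → ∃ η g : ℝ, 0 < η ∧ 0 < g ∧ ∀ (i₁ : Fin m) (i p : ℕ), i ≤ 2 * d →
    N ≤ p + d → p < N → ∀ ψ κ : ℝ, 0 < ψ → 0 < κ → ∀ S : FCl m,
    Clg S (fun J F A => Tl F r η A → Sp F (m - 2) ψ g A → Ch F i₁ ⌊h₁ * J⌋₊ A →
      Lab F i₁ J K (i * (J / N)) (i * (J / N)) (p * (J / N)) A →
      ∃ B : F.Ω → Prop, Sub B A ∧ Real.exp (-(κ * J)) * Pe F.p A ≤ Pe F.p B ∧
        ClG F i₁ J D 0 ((N - Cs * d) * (J / N)) B)

end Pool.PB
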